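import Mathlib
import Pool.Agent.Lib.helper23.WhC

namespace Pool.Agent.Results.MP_faea85_an.WeakSeqNotHyper

open Filter Topology

/-- `M` contains the weak limit of every weakly convergent sequence of its elements. -/
def WeakSeqClosed {B : Type} [NormedAddCommGroup B] [NormedSpace ℂ B] (M : Set B) : Prop :=
  ∀ (u : ℕ → B) (y : B), (∀ k, u k ∈ M) →
    (∀ φ : B →L[ℂ] ℂ, Tendsto (fun k => φ (u k)) atTop (𝓝 (φ y))) → y ∈ M

theorem result : ∃ (B : Type) (_ : NormedAddCommGroup B) (_ : NormedSpace ℂ B)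
    (_ : CompleteSpace B) (T : B →L[ℂ] B),
    (∃ x : B, ∀ M : Set B, WeakSeqClosed M → (∀ n : ℕ, (T ^ n) x ∈ M) → M = Set.univ) ∧
    ¬ ∃ x : B, Dense (Set.range fun n : ℕ => (T ^ n) x) := by
  obtain ⟨B, i1, i2, i3, T, ⟨x, hx⟩, h⟩ := Pool.Agent.Lib.helper23.WhC.exists_op
  refine ⟨B, i1, i2, i3, T, ⟨x, fun M hM hx' => Set.eq_univ_of_forall fun y => ?_⟩, h⟩
  obtain ⟨n, hn⟩ := hx y
  exact hM (fun k => (T ^ n k) x) y (fun k => hx' _) hn

end Pool.Agent.Results.MP_faea85_an.WeakSeqNotHyper
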